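import Pool.Agent.V1172.BKn.Magic

/-!
Burns–Krantz rigidity of the symmetrized polydisc at every boundary point.
-/

set_option autoImplicit false

open Set Filter Topology Metric Asymptotics

namespace Pool.Agent.Results.MP_96bc49_an.AllBoundaryPoints

/-- The elementary symmetric polynomial `σ_k(λ_1, …, λ_n)`. -/
noncomputable def sigma {n : ℕ} (k : ℕ) (l : Fin n → ℂ) : ℂ :=
  ∑ I ∈ Finset.powersetCard k (Finset.univ : Finset (Fin n)), ∏ i ∈ I, l i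

/-- The symmetrization map `π_n = (σ_1, …, σ_n)`. -/
noncomputable def symmetrization {n : ℕ} (l : Fin n → ℂ) : Fin n → ℂ :=
  fun k => sigma ((k : ℕ) + 1) l

/-- The symmetrized polydisc `𝔾_n = π_n(𝔻ⁿ)`. -/
def SymPolydisc (n : ℕ) : Set (Fin n → ℂ) :=
  {z | ∃ l : Fin n → ℂ, (∀ i, ‖l i‖ < 1) ∧ z = symmetrization l}

/-- The Euclidean norm on `ℂⁿ`. -/
noncomputable def eucl {n : ℕ} (v : Fin n → ℂ) : ℝ := Real.sqrt (∑ i, ‖v i‖ ^ 2)

/-- The Burns–Krantz condition at `p`: `F(z) = z + o(‖z - p‖³)` as `z → p`, `z ∈ D`. -/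
def BurnsKrantz {n : ℕ} (D : Set (Fin n → ℂ)) (p : Fin n → ℂ)
    (F : (Fin n → ℂ) → Fin n → ℂ) : Prop :=
  (fun z => eucl (F z - z)) =o[𝓝[D] p] (fun z => eucl (z - p) ^ 3)

theorem norm_le_eucl {n : ℕ} (v : Fin n → ℂ) : ‖v‖ ≤ eucl v := by
  refine (pi_norm_le_iff_of_nonneg (Real.sqrt_nonneg _)).2 fun i => ?_
  apply Real.le_sqrt_of_sq_le
  exact Finset.single_le_sum (f := fun i => ‖v i‖ ^ 2) (fun j _ => sq_nonneg _)
    (Finset.mem_univ i)

theorem eucl_nonneg {n : ℕ} (v : Fin n → ℂ) : 0 ≤ eucl v := Real.sqrt_nonneg _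

theorem eucl_le {n : ℕ} (v : Fin n → ℂ) : eucl v ≤ (n + 1) * ‖v‖ := by
  unfold eucl
  apply Real.sqrt_le_iff.2
  constructor
  · positivity
  · have h1 : ∑ i, ‖v i‖ ^ 2 ≤ ∑ _i : Fin n, ‖v‖ ^ 2 :=
      Finset.sum_le_sum fun i _ => pow_le_pow_left₀ (norm_nonneg _) (norm_le_pi_norm v i) 2
    rw [Finset.sum_const, Finset.card_univ, Fintype.card_fin, nsmul_eq_mul] at h1
    have h2 : (0 : ℝ) ≤ n := Nat.cast_nonneg n
    have h3 : (n : ℝ) * ‖v‖ ^ 2 ≤ ((n + 1) * ‖v‖) ^ 2 := by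
      have : ((n + 1) * ‖v‖) ^ 2 - (n : ℝ) * ‖v‖ ^ 2 = ((n : ℝ) ^ 2 + n + 1) * ‖v‖ ^ 2 := by ring
      have h4 : 0 ≤ ((n : ℝ) ^ 2 + n + 1) * ‖v‖ ^ 2 := by positivity
      linarith
    linarith

/-- **Burns–Krantz rigidity at every boundary point of the symmetrized polydisc.** -/
theorem result : ∀ n : ℕ, ∀ p ∈ frontier (SymPolydisc n), ∀ F : (Fin n → ℂ) → Fin n → ℂ,
    DifferentiableOn ℂ F (SymPolydisc n) → MapsTo F (SymPolydisc n) (SymPolydisc n) →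
    BurnsKrantz (SymPolydisc n) p F → ∀ z ∈ SymPolydisc n, F z = z := by
  intro n p hp F hF hm hBK
  refine Pool.Agent.V1172.BKn.rigidity (n := n) (p := p) (frontier_subset_closure hp) F hF hm ?_
  intro η hη
  have hn : (0 : ℝ) < (n + 1) ^ 3 := by positivity
  have h1 := hBK.def (c := η / (n + 1) ^ 3) (by positivity)
  rw [eventually_nhdsWithin_iff, Metric.eventually_nhds_iff] at h1
  obtain ⟨δ, hδ, h1⟩ := h1
  refine ⟨δ, hδ, fun z hz hzd => ?_⟩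
  have h2 := h1 (y := z) (by rw [dist_eq_norm]; exact hzd) hz
  rw [Real.norm_of_nonneg (eucl_nonneg _),
    Real.norm_of_nonneg (pow_nonneg (eucl_nonneg _) 3)] at h2
  calc ‖F z - z‖ ≤ eucl (F z - z) := norm_le_eucl _
    _ ≤ η / (n + 1) ^ 3 * eucl (z - p) ^ 3 := h2
    _ ≤ η / (n + 1) ^ 3 * ((n + 1) * ‖z - p‖) ^ 3 :=
        mul_le_mul_of_nonneg_left (pow_le_pow_left₀ (eucl_nonneg _) (eucl_le _) 3) (by positivity)
    _ = η * ‖z - p‖ ^ 3 := by field_simp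

end Pool.Agent.Results.MP_96bc49_an.AllBoundaryPoints
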